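import Pool.Agent.Helper33.PH.Focal
import Pool.Agent.Helper33.PH.Amen

set_option autoImplicit false

open Pool.Agent.Helper33.PH

/-- The free group of rank two is finitely generated, non-amenable, and has property (PH) from
focal and lineal actions; two focal actions of the group itself suffice. -/
theorem Pool.Agent.Results.MP_d5cca6_al.FreeGroupFocal.result :
    Group.FG (FreeGroup Bool) ∧ ¬ IsAmenable (FreeGroup Bool) ∧
      HasPHFocalLineal (FreeGroup Bool) ∧
      ∃ A : Fin 2 → HypAction (FreeGroup Bool), (∀ i, (A i).IsFocal) ∧ IsProperDiagonal A := by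
  refine ⟨inferInstance, not_amenable, ⟨⊤, inferInstance, 2,
    twoActions (⊤ : Subgroup (FreeGroup Bool)).subtype
      (fun x => ⟨⟨x, Subgroup.mem_top x⟩, rfl⟩),
    fun i => Or.inl (horo_focal _ _), twoActions_proper _ _ Subtype.val_injective⟩,
    twoActions (MonoidHom.id (FreeGroup Bool)) Function.surjective_id,
    fun i => horo_focal _ _, twoActions_proper _ _ Function.injective_id⟩
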